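import Pool.Agent.helper29.JZ.Spec

/-! # Row TRB of the jz project: transposition, second part -/

set_option autoImplicit false

open Finset Polynomial Module

namespace Pool.Agent.helper78.JZ

noncomputable section

open Pool.Agent.helper97.FP FP97
open Pool.Agent.helper29.JZ

private theorem TRB_im {h h' : ℕ} (A : Finset (Fin h × Fin h')) (k : Fin h) :
    ((A.image Prod.swap).filter fun z => z.2 = k).card = (A.filter fun z => z.1 = k).card := by
  have h1 : ((A.image Prod.swap).filter fun z => z.2 = k) = (A.filter fun z => z.1 = k).image Prod.swap := by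
    rw [Finset.filter_image]
    rfl
  rw [h1, Finset.card_image_of_injective _ Prod.swap_injective]

private theorem TRB_im' {h h' : ℕ} (A : Finset (Fin h × Fin h')) (m : Fin h') :
    ((A.image Prod.swap).filter fun z => z.1 = m).card = (A.filter fun z => z.2 = m).card := by
  have h1 : ((A.image Prod.swap).filter fun z => z.1 = m) = (A.filter fun z => z.2 = m).image Prod.swap := by
    rw [Finset.filter_image]
    rfl
  rw [h1, Finset.card_image_of_injective _ Prod.swap_injective]

theorem jz_TRB : TRB_stmt := by
  intro hTRA h h' M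
  obtain ⟨_, hcol, hrow, hPA, hPB, _, hHC⟩ := hTRA h h' M
  refine ⟨?_, ?_, ?_, ?_, ?_, ?_, ?_, ?_⟩
  · rw [hPA, Finset.card_image_of_injective _ Prod.swap_injective]
  · rw [hPB, Finset.card_image_of_injective _ Prod.swap_injective]
  · unfold mA mB
    rw [hPA]
    exact Finset.sup_congr rfl fun k _ => TRB_im _ k
  · unfold mA mB
    rw [hPB]
    exact Finset.sup_congr rfl fun m _ => TRB_im' _ m
  · unfold sA sB
    congr 1
    refine Finset.filter_congr fun k _ => ?_
    rw [hrow, hPA]
    constructor
    · rintro ⟨h1, z, hz, hzk⟩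
      obtain ⟨w, hw, rfl⟩ := Finset.mem_image.1 hz
      exact ⟨h1, w, hw, hzk⟩
    · rintro ⟨h1, z, hz, hzk⟩
      exact ⟨h1, z.swap, Finset.mem_image_of_mem _ hz, hzk⟩
  · unfold sA sB
    congr 1
    refine Finset.filter_congr fun m _ => ?_
    rw [hcol, hPB]
    constructor
    · rintro ⟨h1, z, hz, hzm⟩
      obtain ⟨w, hw, rfl⟩ := Finset.mem_image.1 hz
      exact ⟨h1, w, hw, hzm⟩
    · rintro ⟨h1, z, hz, hzm⟩
      exact ⟨h1, z.swap, Finset.mem_image_of_mem _ hz, hzm⟩
  · rw [hPA, hPB, ← Finset.image_inter _ _ Prod.swap_injective,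
      Finset.card_image_of_injective _ Prod.swap_injective, Finset.inter_comm]
  · intro x y P Q
    rw [hHC x y P Q, Finset.card_image_of_injective _ Prod.swap_injective]

end

end Pool.Agent.helper78.JZ
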